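import Pool.Agent.Helper4.HZ.Final
import Pool.Agent.Helper91.HZ.BCA
import Pool.Agent.Helper2.HZ.BCB
import Pool.Agent.Helper79.HZ.BCC
import Pool.Agent.Helper91.HZ.BCD
import Pool.Agent.Helper91.HZ.LIN
import Pool.Agent.Helper91.HZ.SER
import Pool.Agent.Helper7.HZ.OPP
import Pool.Agent.Helper87.HZ.TRF
import Pool.Agent.Helper56.HZ.DIM
import Pool.Agent.Helper7.HZ.CLA
import Pool.Agent.Helper8.HZ.AUA
import Pool.Agent.Helper93.HZ.AUB
import Pool.Agent.Helper5.HZ.AUC
import Pool.Agent.Helper13.HZ.TRC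
import Pool.Agent.Helper79.HZ.OUT
import Pool.Agent.Helper39.HZ.QUO
import Pool.Agent.Helper39.HZ.PSM
import Pool.Agent.Helper50.HZ.CHF
import Pool.Agent.Helper51.HZ.CMB
import Pool.Agent.Helper64.HZ.DAT
import Pool.Agent.Helper8.HZ.UDA
import Pool.Agent.Helper87.HZ.CRD
import Pool.Agent.Helper69.HZ.ZPR
import Pool.Agent.Helper40.HZ.ZGN
import Pool.Agent.Helper34.HZ.ZRD
import Pool.Agent.Helper72.HZ.ZFL
import Pool.Agent.Helper56.HZ.ZAT
import Pool.Agent.Helper70.HZ.ZAB
import Pool.Agent.Helper60.HZ.PSV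
import Pool.Agent.Helper77.HZ.LOW
import Pool.Agent.Helper93.HZ.KOA
import Pool.Agent.Helper40.HZ.KOB
import Pool.Agent.Helper39.HZ.KOI
import Pool.Agent.Helper34.HZ.KOC
import Pool.Agent.Helper13.HZ.KOD

/-!
# Genera with a unique Hurwitz surface: the abscissa of convergence

Let `U` be the set of genera with exactly one Hurwitz surface. For every class `X` of groups let
`UX X ⊆ U` be the genera for which every nonabelian composition factor of the automorphism group
`Δ/N` of the Hurwitz surface is in `X` or is some `PSL₂(p)`. The abscissa of convergence of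
`∑_{g ∈ UX X} g^(-s)` is at least `1/6` and at most the maximum of `1/6` and the abscissa of
convergence of the orders of the simple groups in `X` that are not `PSL₂(p)`. For the known finite
simple groups it is exactly `1/6`.
-/

namespace Pool.Agent.Results.MP_af40fb_al.UniqueGenusAbscissa

open Pool.Agent.Helper4.HZ Pool.Agent.Helper23.Hurwitz

theorem cla : S_CLA := Pool.Agent.Helper7.HZ.CLA.CLA_holds Pool.Agent.Helper91.HZ.LIN_holds
  Pool.Agent.Helper7.HZ.OPP.OPP_holds Pool.Agent.Helper87.HZ.TRF_holds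
  Pool.Agent.Helper56.HZ.DIM_holds

theorem auc : S_AUC := Pool.Agent.Helper5.HZ.AUC_holds Pool.Agent.Helper4.HZ.AUA_holds
  Pool.Agent.Helper93.HZ.AUB_holds

theorem psm : S_PSM := Pool.Agent.Helper39.HZ.PSM_holds (Pool.Agent.Helper13.HZ.TRC_holds auc)
  (Pool.Agent.Helper39.HZ.QUO_holds (Pool.Agent.Helper79.HZ.OUT_holds auc))
  Pool.Agent.Helper91.HZ.JHU_holds

theorem uda : S_UDA := Pool.Agent.Helper4.HZ.UDA_holds
  (Pool.Agent.Helper91.HZ.BCD_holds (Pool.Agent.Helper79.HZ.BCC_holds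
    (Pool.Agent.Helper2.HZ.BCB_holds Pool.Agent.Helper91.HZ.BCA_holds)))
  (Pool.Agent.Helper64.HZ.DAT_holds cla psm Pool.Agent.Helper50.HZ.CHF_holds
    Pool.Agent.Helper91.HZ.SER_holds Pool.Agent.Helper51.HZ.CMB_holds)

theorem zgn : S_ZGN := Pool.Agent.Helper40.HZ.ZGN_holds Pool.Agent.Helper69.HZ.ZPR_holds

theorem zab : S_ZAB := Pool.Agent.Helper70.HZ.ZAB_holds uda Pool.Agent.Helper69.HZ.ZPR_holds zgn
  Pool.Agent.Helper34.HZ.ZRD_holds (Pool.Agent.Helper72.HZ.ZFL_holds zgn)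
  (Pool.Agent.Helper56.HZ.ZAT_holds Pool.Agent.Helper87.HZ.CRD_holds)

/-- The abscissa of convergence of the genera with a unique Hurwitz surface, relative to a class
`X` of simple groups; it is `1/6` for the known finite simple groups. -/
theorem result :
    (∀ X : (T : Type) → [Group T] → Prop,
      ((1 / 6 : ℝ) : EReal) ≤ abscissa (UX X) ∧
        abscissa (UX X) ≤ max ((1 / 6 : ℝ) : EReal) (abscissa (simpleOrders X))) ∧
    (∀ S : Set ℕ, S.Finite →
      abscissa (UX (fun T _ => Nat.card T ∈ KnownOrders ∪ S)) = ((1 / 6 : ℝ) : EReal)) :=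
  final_of (Pool.Agent.Helper77.HZ.LOW_holds
      (Pool.Agent.Helper60.HZ.PSV_holds Pool.Agent.Helper87.HZ.CRD_holds)) zab
    Pool.Agent.Helper93.HZ.KOA_holds Pool.Agent.Helper40.HZ.KOB_holds
    (Pool.Agent.Helper34.HZ.KOC_holds Pool.Agent.Helper39.HZ.KOI_holds)
    Pool.Agent.Helper13.HZ.KOD_holds

end Pool.Agent.Results.MP_af40fb_al.UniqueGenusAbscissa
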